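import Mathlib
import Pool.Agent.MP_361b6b_co.Proto

set_option autoImplicit false

namespace Pool.Agent.Results.MP_361b6b_co.ThreeAspects

open Set

/-- The Euclidean plane. -/
abbrev Plane := EuclideanSpace ℝ (Fin 2)

/-- An arc: the image of `[0,1]` under a continuous injective map. -/
def IsArc (A : Set Plane) : Prop :=
  ∃ γ : unitInterval → Plane, Continuous γ ∧ Function.Injective γ ∧ range γ = A

/-- An unbounded simple curve which is the image of `[0,∞)` under a continuous injective map
tending to infinity. -/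
def IsRayCurve (C : Set Plane) : Prop :=
  ¬ Bornology.IsBounded C ∧ ∃ γ : NNReal → Plane, Continuous γ ∧ Function.Injective γ ∧
    range γ = C ∧ Filter.Tendsto (fun t => ‖γ t‖) Filter.atTop Filter.atTop

/-- The tiles `φ i '' T` form a locally finite monohedral tiling of the plane by closed topological
disks, and `M` is a marking of the prototile `T`. -/
structure IsMarkedTiling (T : Set Plane) (M : Set (Set Plane)) {ι : Type}
    (φ : ι → Plane ≃ᵢ Plane) : Prop where
  countable : Countable ι
  closed : IsClosed T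
  disk : Nonempty (T ≃ₜ Metric.closedBall (0 : Plane) 1)
  cover : ⋃ i, φ i '' T = univ
  disjoint : Pairwise fun i j => Disjoint (interior (φ i '' T)) (interior (φ j '' T))
  locallyFinite : ∀ B : Set Plane, Bornology.IsBounded B → {i | (φ i '' T ∩ B).Nonempty}.Finite
  markFinite : M.Finite
  markNonempty : M.Nonempty
  markArc : ∀ A ∈ M, IsArc A ∧ A ⊆ T

/-- Two marked tiles are in the same aspect if a translation maps the one tile onto the other and
its set of carried arcs onto the set of carried arcs of the other. -/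
def SameAspect (T : Set Plane) (M : Set (Set Plane)) (f g : Plane ≃ᵢ Plane) : Prop :=
  ∃ v : Plane, (fun p => p + v) '' (f '' T) = g '' T ∧
    (fun A => (fun p => p + v) '' (f '' A)) '' M = (fun A => g '' A) '' M

open Pool.Agent.MP_361b6b_co

theorem ray_of {C : Set Plane} (h : ∃ γ : NNReal → Plane, Continuous γ ∧ Function.Injective γ ∧
    range γ = C ∧ Filter.Tendsto (fun t => ‖γ t‖) Filter.atTop Filter.atTop) : IsRayCurve C := by
  refine ⟨fun hb => ?_, h⟩
  obtain ⟨γ, -, -, h3, h4⟩ := h
  obtain ⟨R, hR⟩ := hb.exists_norm_le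
  obtain ⟨t, ht⟩ := (h4.eventually_gt_atTop R).exists
  exact absurd (hR (γ t) (h3 ▸ mem_range_self t)) (not_le.mpr ht)

/-- There is a spiral tiling in which the marked prototile occurs in exactly three aspects; the
marking is invariant under every symmetry of the prototile and the curves are pairwise disjoint. -/
theorem result :
    ∃ (T : Set Plane) (M : Set (Set Plane)) (ι : Type) (φ : ι → Plane ≃ᵢ Plane),
      IsMarkedTiling T M φ ∧
      (∀ g : Plane ≃ᵢ Plane, g '' T = T → (fun A => g '' A) '' M = M) ∧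
      (∃ (n : ℕ) (C : Fin n → Set Plane), (∀ k, IsRayCurve (C k)) ∧
        (Pairwise fun k l => Disjoint (C k) (C l)) ∧
        (⋃ i, ⋃ A ∈ M, φ i '' A) = ⋃ k, C k) ∧
      ∃ aspect : ι → Fin 3, Function.Surjective aspect ∧
        ∀ i j, aspect i = aspect j ↔ SameAspect T M (φ i) (φ j) := by
  refine ⟨T, {Dg}, Idx, φ, ⟨inferInstance, T_closed, T_disk, cover, disj, locFin,
    finite_singleton _, singleton_nonempty _, ?_⟩, ?_, ⟨2, ![CA, CB], ?_, ?_, ?_⟩,
    fun i => i.1.1, ?_, ?_⟩
  · rintro A rfl
    exact ⟨Dg_arc, Dg_sub⟩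
  · intro g hg
    rw [image_singleton, Dg_invariant g hg]
  · intro k
    fin_cases k
    · exact ray_of exists_ray_CA
    · exact ray_of exists_ray_CB
  · intro k l hkl
    fin_cases k <;> fin_cases l
    · exact absurd rfl hkl
    · exact disjoint_CA_CB
    · exact disjoint_CA_CB.symm
    · exact absurd rfl hkl
  · simp only [mem_singleton_iff, iUnion_iUnion_eq_left]
    rw [marks_eq]
    ext p
    simp [Fin.exists_fin_two]
  · intro k
    fin_cases k
    · exact ⟨⟨(0, 1, 0), Or.inl ⟨rfl, Or.inl ⟨le_rfl, le_rfl⟩⟩⟩, rfl⟩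
    · exact ⟨⟨(1, 0, 1), Or.inr (Or.inl ⟨rfl, Or.inl ⟨le_rfl, le_rfl⟩⟩)⟩, rfl⟩
    · exact ⟨⟨(2, 0, 0), Or.inr (Or.inr ⟨rfl, Or.inl ⟨le_rfl, le_rfl⟩⟩)⟩, rfl⟩
  · rintro ⟨⟨k, a, b⟩, h⟩ ⟨⟨k', a', b'⟩, h'⟩
    constructor
    · intro hk
      obtain rfl : k = k' := hk
      obtain ⟨v, hv⟩ := place_shift k a b a' b'
      refine ⟨v, ?_, ?_⟩
      · rw [image_image]
        exact image_congr fun p _ => hv p
      · rw [image_singleton, image_singleton, image_image]
        congr 1
        exact image_congr fun p _ => hv p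
    · rintro ⟨v, hv, -⟩
      exact aspect_eq hv

end Pool.Agent.Results.MP_361b6b_co.ThreeAspects
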